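import Pool.Agent.MP_c69980_ag.H43.Spec1

/-!
Logarithmic derivatives in a field generated by exponentials.
-/

set_option autoImplicit false

namespace Pool.Agent.MP_c69980_ag.H43

open Finset

/-- Elements of `L` on which both derivations act by multiplication by elements of `N`. -/
def logG (D E : Der) (N L : Subfield ℂ) (f : ℂ) : Prop :=
  f ∈ L ∧ (∃ a ∈ N, D f = a * f) ∧ ∃ b ∈ N, E f = b * f

variable {D E : Der} {N L : Subfield ℂ}

lemma logG_mul {f g : ℂ} (hf : logG D E N L f) (hg : logG D E N L g) :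
    logG D E N L (f * g) := by
  obtain ⟨h1, ⟨a, ha, h2⟩, b, hb, h3⟩ := hf
  obtain ⟨h4, ⟨a', ha', h5⟩, b', hb', h6⟩ := hg
  refine ⟨mul_mem h1 h4, ⟨a + a', add_mem ha ha', ?_⟩, b + b', add_mem hb hb', ?_⟩
  · rw [Derivation.leibniz, h2, h5, smul_eq_mul, smul_eq_mul]; ring
  · rw [Derivation.leibniz, h3, h6, smul_eq_mul, smul_eq_mul]; ring

lemma log_inv (D : Der) {f a : ℂ} (h : D f = a * f) : D f⁻¹ = -a * f⁻¹ := by
  rw [Derivation.leibniz_inv, h, smul_eq_mul]
  by_cases hf : f = 0
  · simp [hf]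
  · field_simp

lemma logG_inv {f : ℂ} (hf : logG D E N L f) : logG D E N L f⁻¹ := by
  obtain ⟨h1, ⟨a, ha, h2⟩, b, hb, h3⟩ := hf
  exact ⟨inv_mem h1, ⟨-a, neg_mem ha, log_inv D h2⟩, -b, neg_mem hb, log_inv E h3⟩

lemma log_div_mul (D : Der) (c : ℂ) : D c = D c / c * c := by
  by_cases hc : c = 0
  · simp [hc]
  · field_simp

lemma logG_base (hD : Pres D N) (hE : Pres E N) (hNL : N ≤ L) {c : ℂ} (hc : c ∈ N) :
    logG D E N L c :=
  ⟨hNL hc, ⟨_, div_mem (hD c hc) hc, log_div_mul D c⟩, _, div_mem (hE c hc) hc, log_div_mul E c⟩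

/-- Each term of an independent sum of such elements is dominated by the sum. -/
lemma log_dom {V : ValuationSubring ℂ} (hD : Pres D N) (hE : Pres E N) (hNL : N ≤ L)
    (hc : ∀ x ∈ L, D x = 0 → x ∈ N) (hV : ∀ x ∈ N, x ∈ V) (hL : ∀ x ∈ L, D x / x ∈ V)
    {κ : Type} (s : Finset κ) : ∀ f : κ → ℂ, (∀ i ∈ s, logG D E N L (f i)) →
      (∀ c : κ → ℂ, (∀ i, c i ∈ N) → ∑ i ∈ s, c i * f i = 0 → ∀ i ∈ s, c i = 0) →
      ∀ i ∈ s, f i / ∑ j ∈ s, f j ∈ V := by
  classical
  induction s using Finset.induction_on with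
  | empty => intro f _ _ i hi; simp at hi
  | insert k s hk ih =>
    intro f hG hI
    have hex : ∀ i, ∃ a, a ∈ N ∧ (i ∈ insert k s → D (f i) = a * f i) := by
      intro i
      by_cases hi : i ∈ insert k s
      · obtain ⟨a, ha, h⟩ := (hG i hi).2.1
        exact ⟨a, ha, fun _ => h⟩
      · exact ⟨0, zero_mem _, fun h => absurd h hi⟩
    choose a ha haD using hex
    have hkm : k ∈ insert k s := mem_insert_self k s
    have hφ : ∑ j ∈ insert k s, f j ≠ 0 := fun h0 =>
      one_ne_zero (hI (fun _ => 1) (fun _ => one_mem _) (by simpa using h0) k hkm)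
    have hI' : ∀ (u : ℂ) (c : κ → ℂ), u ∈ N → (∀ i, c i ∈ N) →
        u * f k + ∑ i ∈ s, c i * f i = 0 → u = 0 ∧ ∀ i ∈ s, c i = 0 := by
      intro u c hu hcN h0
      have e : ∑ i ∈ s, Function.update c k u i * f i = ∑ i ∈ s, c i * f i :=
        sum_congr rfl fun i hi => by
          rw [Function.update_of_ne (ne_of_mem_of_not_mem hi hk)]
      have := hI (Function.update c k u) (fun i => by
        by_cases e : i = k
        · subst e; simpa using hu
        · rw [Function.update_of_ne e]; exact hcN i) (by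
          rw [sum_insert hk, e, Function.update_self]; exact h0)
      refine ⟨by simpa using this k hkm, fun i hi => ?_⟩
      have h2 := this i (mem_insert_of_mem hi)
      rwa [Function.update_of_ne (ne_of_mem_of_not_mem hi hk)] at h2
    have hfk : f k ≠ 0 := fun h0 =>
      one_ne_zero (hI' 1 (fun _ => 0) (one_mem _) (fun _ => zero_mem _) (by simp [h0])).1
    have hDq : ∀ i ∈ insert k s, D (f i * (f k)⁻¹) = (a i - a k) * (f i * (f k)⁻¹) := by
      intro i hi
      rw [Derivation.leibniz, log_inv D (haD k hkm), haD i hi, smul_eq_mul, smul_eq_mul]; ring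
    have hne : ∀ i ∈ s, a i - a k ≠ 0 := by
      intro i hi h0
      have him := mem_insert_of_mem (b := k) hi
      have h1 : f i * (f k)⁻¹ ∈ N :=
        hc _ (mul_mem (hG i him).1 (inv_mem (hG k hkm).1)) (by rw [hDq i him, h0, zero_mul])
      have h2 := (hI' (f i * (f k)⁻¹) (fun j => if j = i then -1 else 0) h1 (fun j => by
        split_ifs
        · exact neg_mem (one_mem _)
        · exact zero_mem _) (by
          simp only [ite_mul, zero_mul, sum_ite_eq', if_pos hi]
          field_simp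
          ring)).2 i hi
      simp at h2
    have hgI : ∀ c : κ → ℂ, (∀ i, c i ∈ N) →
        ∑ i ∈ s, c i * ((a i - a k) * (f i * (f k)⁻¹)) = 0 → ∀ i ∈ s, c i = 0 := by
      intro c hcN h0 i hi
      have h1 := (hI' 0 (fun i => c i * (a i - a k)) (zero_mem _)
        (fun i => mul_mem (hcN i) (sub_mem (ha i) (ha k))) (by
          have := congrArg (· * f k) h0
          simp only [sum_mul, zero_mul] at this
          rw [zero_mul, zero_add, ← this]
          exact sum_congr rfl fun j _ => by field_simp)).2 i hi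
      exact (mul_eq_zero.1 h1).resolve_right (hne i hi)
    have h1 := ih (fun i => (a i - a k) * (f i * (f k)⁻¹)) (fun i hi =>
      logG_mul (logG_base hD hE hNL (sub_mem (ha i) (ha k)))
        (logG_mul (hG i (mem_insert_of_mem hi)) (logG_inv (hG k hkm)))) hgI
    have hψ : D ((∑ j ∈ insert k s, f j) * (f k)⁻¹) =
        ∑ j ∈ s, (a j - a k) * (f j * (f k)⁻¹) := by
      rw [sum_mul, map_sum, sum_congr rfl hDq, sum_insert hk, sub_self, zero_mul, zero_add]
    have h2 := hL _ (mul_mem (sum_mem fun j hj => (hG j hj).1) (inv_mem (hG k hkm).1))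
    rw [hψ] at h2
    have h3 : ∀ i ∈ s, f i / ∑ j ∈ insert k s, f j ∈ V := by
      intro i hi
      have hψ0 : ∑ j ∈ s, (a j - a k) * (f j * (f k)⁻¹) ≠ 0 := fun h0 =>
        one_ne_zero (hgI (fun _ => 1) (fun _ => one_mem _) (by simpa using h0) i hi)
      have h4 := mul_mem (hV _ (inv_mem (sub_mem (ha i) (ha k)))) (mul_mem (h1 i hi) h2)
      have h5 := hne i hi
      generalize ∑ j ∈ s, (a j - a k) * (f j * (f k)⁻¹) = ψ at h4 hψ0
      convert h4 using 1
      field_simp
    intro i hi
    rcases mem_insert.1 hi with rfl | hi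
    · have h4 := sub_mem (one_mem V) (sum_mem h3)
      convert h4 using 1
      rw [← sum_div, eq_sub_iff_add_eq, ← add_div, ← sum_insert hk, div_self hφ]
    · exact h3 i hi

lemma log_span {V : ValuationSubring ℂ} (hD : Pres D N) (hE : Pres E N) (hNL : N ≤ L)
    (hc : ∀ x ∈ L, D x = 0 → x ∈ N) (hV : ∀ x ∈ N, x ∈ V) (hL : ∀ x ∈ L, D x / x ∈ V)
    {x : ℂ} (hx : x ∈ Submodule.span N {f | logG D E N L f}) : E x / x ∈ V := by
  classical
  obtain ⟨b, hb, hs, hi⟩ := exists_linearIndependent N {f | logG D E N L f}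
  have hi' : LinearIndepOn N id b := hi
  rw [← hs] at hx
  obtain ⟨c, hc1, rfl⟩ := Submodule.mem_span_set.1 hx
  have hG : ∀ i ∈ c.support, logG D E N L ((c i : ℂ) * i) := fun i hi =>
    logG_mul (logG_base hD hE hNL (c i).2) (hb (hc1 hi))
  have h1 := log_dom hD hE hNL hc hV hL c.support (fun i => (c i : ℂ) * i) hG (by
    intro d hd h0 i hi
    have h2 := linearIndepOn_iff'.1 hi' c.support (fun j => ⟨d j, hd j⟩ * c j) hc1 (by
      rw [← h0]
      exact sum_congr rfl fun j _ => mul_assoc (d j) (c j : ℂ) j) i hi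
    have h3 := (mul_eq_zero.1 h2).resolve_right (Finsupp.mem_support_iff.1 hi)
    exact congrArg Subtype.val h3)
  change E (∑ i ∈ c.support, (c i : ℂ) * i) / (∑ i ∈ c.support, (c i : ℂ) * i) ∈ V
  rw [map_sum, sum_div]
  refine sum_mem fun i hi => ?_
  obtain ⟨u, hu, h2⟩ := (hG i hi).2.2
  rw [h2, mul_div_assoc]
  exact mul_mem (hV u hu) (h1 i hi)

theorem sLog : SLog := by
  intro D E N ι η V hD hE hc hη hV hL x hx
  set L := Subfield.closure (N ∪ Set.range η : Set ℂ) with hLdef
  have hNL : N ≤ L := fun _ h => Subfield.subset_closure (Or.inl h)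
  have hS : ∀ y ∈ Subring.closure (N ∪ Set.range η : Set ℂ),
      y ∈ Submodule.span N {f | logG D E N L f} := by
    intro y hy
    induction hy using Subring.closure_induction with
    | mem y h =>
      refine Submodule.subset_span ?_
      rcases h with h | ⟨j, rfl⟩
      · exact logG_base hD hE hNL h
      · exact ⟨Subfield.subset_closure (Or.inr ⟨j, rfl⟩), ⟨_, (hη j).2.1, log_div_mul D _⟩,
          _, (hη j).2.2, log_div_mul E _⟩
    | zero => exact zero_mem _
    | one => exact Submodule.subset_span (logG_base hD hE hNL (one_mem _))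
    | add _ _ _ _ a b => exact add_mem a b
    | neg _ _ a => exact neg_mem a
    | mul _ _ _ _ a b =>
      have h := Submodule.mul_mem_mul a b
      rw [Submodule.span_mul_span] at h
      refine Submodule.span_mono ?_ h
      rintro _ ⟨u, hu, v, hv, rfl⟩
      exact logG_mul hu hv
  obtain ⟨y, hy, z, hz, rfl⟩ := Subfield.mem_closure_iff.1 hx
  by_cases hy0 : y = 0
  · simp [hy0, zero_mem]
  by_cases hz0 : z = 0
  · simp [hz0, zero_mem]
  have h1 := sub_mem (log_span hD hE hNL hc hV hL (hS y hy)) (log_span hD hE hNL hc hV hL (hS z hz))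
  convert h1 using 1
  rw [Derivation.leibniz_div]
  simp only [smul_eq_mul]
  field_simp

end Pool.Agent.MP_c69980_ag.H43
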